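import Pool.Agent.Helper10_Oh.Ham

set_option autoImplicit false

namespace Pool.Agent.Helper10_Oh

open Set Filter Topology Metric MeasureTheory
open scoped NNReal ENNReal MeasureTheory ContDiff

/-- the explicit trajectory -/
noncomputable def crv (T : ℝ) (e1 e2 e3 ζ : ℂ) (t : ℝ) : E4 :=
  WithLp.toLp 2 ![((((t * T : ℝ)) : ℂ) + ζ) * (e1 * e2 * e3),
    e1 * (√(1 - 2 * (t * T) * ζ.re - (t * T) ^ 2) : ℝ),
    e2 * (√(1 - 2 * (t * T) * ζ.re - (t * T) ^ 2) : ℝ),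
    e3 * (√(1 - 2 * (t * T) * ζ.re - (t * T) ^ 2) : ℝ)]

lemma crv_hasDerivAt {T : ℝ} {e1 e2 e3 ζ : ℂ} {t : ℝ}
    (h : 0 < 1 - 2 * (t * T) * ζ.re - (t * T) ^ 2) :
    HasDerivAt (crv T e1 e2 e3 ζ) (WithLp.toLp 2 ![(T : ℂ) * (e1 * e2 * e3),
      ((-(T * (((t * T : ℝ) : ℂ) + ζ).re) / √(1 - 2 * (t * T) * ζ.re - (t * T) ^ 2) : ℝ) : ℂ) * e1,
      ((-(T * (((t * T : ℝ) : ℂ) + ζ).re) / √(1 - 2 * (t * T) * ζ.re - (t * T) ^ 2) : ℝ) : ℂ) * e2,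
      ((-(T * (((t * T : ℝ) : ℂ) + ζ).re) / √(1 - 2 * (t * T) * ζ.re - (t * T) ^ 2) : ℝ) : ℂ) * e3])
      t := by
  have h1 : HasDerivAt (fun t : ℝ => t * T) T t := by
    simpa using (hasDerivAt_id t).mul_const T
  have h2 : HasDerivAt (fun t : ℝ => 1 - 2 * (t * T) * ζ.re - (t * T) ^ 2)
      (-(2 * T * ζ.re) - 2 * (t * T) * T) t := by
    have h3 := ((((h1.const_mul 2).mul_const ζ.re).const_sub 1)).sub (h1.pow 2)
    convert! h3 using 1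
    simp
  have h3 : HasDerivAt (fun t : ℝ => √(1 - 2 * (t * T) * ζ.re - (t * T) ^ 2))
      (-(T * (((t * T : ℝ) : ℂ) + ζ).re) / √(1 - 2 * (t * T) * ζ.re - (t * T) ^ 2)) t := by
    convert! h2.sqrt h.ne' using 1
    rw [Complex.add_re, Complex.ofReal_re]
    have h4 : √(1 - 2 * (t * T) * ζ.re - (t * T) ^ 2) ≠ 0 := (Real.sqrt_pos.mpr h).ne'
    field_simp
    ring
  have h4 : ∀ e : ℂ, HasDerivAt (fun t : ℝ => e * ((√(1 - 2 * (t * T) * ζ.re - (t * T) ^ 2) : ℝ) : ℂ))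
      (((-(T * (((t * T : ℝ) : ℂ) + ζ).re) / √(1 - 2 * (t * T) * ζ.re - (t * T) ^ 2) : ℝ) : ℂ) * e)
      t := by
    intro e
    rw [mul_comm]
    exact (h3.ofReal_comp).const_mul e
  have h5 : HasDerivAt (fun t : ℝ => (((t * T : ℝ) : ℂ) + ζ) * (e1 * e2 * e3))
      ((T : ℂ) * (e1 * e2 * e3)) t :=
    ((h1.ofReal_comp).add_const ζ).mul_const _
  have h6 : HasDerivAt (fun t : ℝ => (![((((t * T : ℝ)) : ℂ) + ζ) * (e1 * e2 * e3),
    e1 * (√(1 - 2 * (t * T) * ζ.re - (t * T) ^ 2) : ℝ),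
    e2 * (√(1 - 2 * (t * T) * ζ.re - (t * T) ^ 2) : ℝ),
    e3 * (√(1 - 2 * (t * T) * ζ.re - (t * T) ^ 2) : ℝ)] : Fin 4 → ℂ))
      ![(T : ℂ) * (e1 * e2 * e3),
      ((-(T * (((t * T : ℝ) : ℂ) + ζ).re) / √(1 - 2 * (t * T) * ζ.re - (t * T) ^ 2) : ℝ) : ℂ) * e1,
      ((-(T * (((t * T : ℝ) : ℂ) + ζ).re) / √(1 - 2 * (t * T) * ζ.re - (t * T) ^ 2) : ℝ) : ℂ) * e2,
      ((-(T * (((t * T : ℝ) : ℂ) + ζ).re) / √(1 - 2 * (t * T) * ζ.re - (t * T) ^ 2) : ℝ) : ℂ) * e3]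
      t := by
    rw [hasDerivAt_pi]
    intro i
    fin_cases i
    · exact h5
    · exact h4 e1
    · exact h4 e2
    · exact h4 e3
  exact (PiLp.hasFDerivAt_toLp (𝕜 := ℝ) 2 _).comp_hasDerivAt t h6

theorem main_ineq {ρ a T : ℝ} (hρ : 0 < ρ) (hρ1 : ρ < 1 / 6561 / 1600) (ha : 0 < a)
    (haρ : a ≤ ρ ^ 2 / 10) (hT : T = 1 - ρ ^ 2) :
    ∃ (H : ℝ → E4 → ℝ) (φ : ℝ → E4 → E4), ContDiff ℝ ∞ (Function.uncurry H) ∧
      HasCompactSupport (Function.uncurry H) ∧ (∀ x, φ 0 x = x) ∧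
      (∀ (t : ℝ) (x : E4), ∃ v : E4, HasDerivAt (fun s => φ s x) v t ∧
        ∀ w : E4, fderiv ℝ (H t) (φ t x) w = (inner ℂ v w).im) ∧
      μH[((4 : ℕ) : ℝ)] (φ 1 '' Tor a 1) < μH[((4 : ℕ) : ℝ)] (Tor a 1) := by
  have hρ2 : 0 < ρ ^ 2 := by positivity
  have hρs : ρ ^ 2 ≤ 1 / 10 := by nlinarith
  have hT0 : 0 ≤ T := by rw [hT]; linarith
  have hT1 : T ≤ 1 := by rw [hT]; linarith
  have hTa : T + a ≤ 1 := by rw [hT]; linarith
  have hTa' : T * a ≤ a := by nlinarith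
  have hTT : T ^ 2 = 1 - 2 * ρ ^ 2 + ρ ^ 4 := by rw [hT]; ring
  have hρ4 : ρ ^ 4 ≤ ρ ^ 2 / 10 := by nlinarith
  have hρ40 : 0 ≤ ρ ^ 4 := by positivity
  have h1 : ρ ^ 2 ≤ 1 - 2 * T * a - T ^ 2 := by nlinarith
  have h2 : 1 + 2 * T * a - T ^ 2 ≤ 4 * ρ ^ 2 := by nlinarith
  set δ : ℝ := ρ ^ 2 / 2 with hδ
  have d0 : 0 < δ := by positivity
  have d1 : δ < 1 := by rw [hδ]; linarith
  obtain ⟨φ, hφ0, hφ, hφu⟩ := exists_flow (HH d0 d1 T) (HH_contDiff d0 d1 T) (HH_compact d0 d1 T)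
  refine ⟨HH d0 d1 T, φ, HH_contDiff d0 d1 T, HH_compact d0 d1 T, hφ0, hφ, ?_⟩
  have hsub : φ 1 '' Tor a 1 ⊆ Tor' a T := by
    rintro _ ⟨z, hz, rfl⟩
    have hz0 : ‖z 0‖ = a := hz 0
    have hz1 : ‖z 1‖ = 1 := hz 1
    have hz2 : ‖z 2‖ = 1 := hz 2
    have hz3 : ‖z 3‖ = 1 := hz 3
    set e : ℂ := z 1 * z 2 * z 3 with he
    have hen : ‖e‖ = 1 := by rw [he, norm_mul, norm_mul, hz1, hz2, hz3]; norm_num
    set ζ : ℂ := z 0 * (starRingEnd ℂ) e with hζ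
    have hζn : ‖ζ‖ = a := by rw [hζ, norm_mul, hz0, RCLike.norm_conj, hen, mul_one]
    have hee : (starRingEnd ℂ) e * e = 1 := by
      rw [mul_comm, Complex.mul_conj, Complex.normSq_eq_norm_sq, hen]
      simp
    have hre : |ζ.re| ≤ a := hζn ▸ Complex.abs_re_le_norm ζ
    have hc0 : crv T (z 1) (z 2) (z 3) ζ 0 = z := by
      unfold crv
      ext i
      fin_cases i
      · change (((0 * T : ℝ) : ℂ) + ζ) * (z 1 * z 2 * z 3) = z 0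
        rw [← he, hζ]
        have : (((0 * T : ℝ) : ℂ) + z 0 * (starRingEnd ℂ) e) * e = z 0 * ((starRingEnd ℂ) e * e) := by
          push_cast; ring
        rw [this, hee, mul_one]
      · change z 1 * ((√(1 - 2 * (0 * T) * ζ.re - (0 * T) ^ 2) : ℝ) : ℂ) = z 1
        simp
      · change z 2 * ((√(1 - 2 * (0 * T) * ζ.re - (0 * T) ^ 2) : ℝ) : ℂ) = z 2
        simp
      · change z 3 * ((√(1 - 2 * (0 * T) * ζ.re - (0 * T) ^ 2) : ℝ) : ℂ) = z 3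
        simp
    have hkey := hφu (crv T (z 1) (z 2) (z 3) ζ) (fun t ht => ?_)
    · rw [hc0] at hkey
      rw [hkey]
      refine ⟨z 1, z 2, z 3, ζ, hz1, hz2, hz3, hζn, ?_⟩
      unfold crv
      rw [one_mul]
    · have ht0 := ht.1
      have ht1 := ht.2
      have htT0 : 0 ≤ t * T := by positivity
      have htT1 : t * T ≤ T := mul_le_of_le_one_left hT0 ht1
      obtain ⟨hr1, hr2⟩ := abs_le.mp hre
      have hp1 : (t * T) * ζ.re ≤ T * a := by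
        calc (t * T) * ζ.re ≤ (t * T) * a := by gcongr
          _ ≤ T * a := by gcongr
      have hp2 : -(T * a) ≤ (t * T) * ζ.re := by
        have : (t * T) * (-ζ.re) ≤ T * a := by
          calc (t * T) * (-ζ.re) ≤ (t * T) * a := by gcongr; linarith
            _ ≤ T * a := by gcongr
        linarith
      have hsq : (t * T) ^ 2 ≤ T ^ 2 := by gcongr
      have hsq0 : 0 ≤ (t * T) ^ 2 := by positivity
      have hlow : ρ ^ 2 ≤ 1 - 2 * (t * T) * ζ.re - (t * T) ^ 2 := by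
        refine h1.trans ?_
        linarith
      have hup : 1 - 2 * (t * T) * ζ.re - (t * T) ^ 2 < 2 - δ := by
        rw [hδ]
        linarith
      have hpos : 0 < 1 - 2 * (t * T) * ζ.re - (t * T) ^ 2 := by linarith
      refine ⟨_, crv_hasDerivAt hpos, fun w => ?_⟩
      have hr0 : 0 < √(1 - 2 * (t * T) * ζ.re - (t * T) ^ 2) := Real.sqrt_pos.mpr hpos
      have hrs : √(1 - 2 * (t * T) * ζ.re - (t * T) ^ 2) ^ 2 =
        1 - 2 * (t * T) * ζ.re - (t * T) ^ 2 := Real.sq_sqrt hpos.le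
      unfold crv
      refine HH_fderiv d0 d1 (T := T) (t := t) hr0 ?_ ?_ hz1 hz2 hz3 ?_ ?_ w
      · rw [hrs, hδ]; linarith
      · rw [hrs]; exact hup
      · have hn : ‖((t * T : ℝ) : ℂ) + ζ‖ ≤ 1 := by
          refine (norm_add_le _ _).trans ?_
          rw [Complex.norm_real, Real.norm_of_nonneg htT0, hζn]
          linarith
        exact lt_of_le_of_lt (pow_le_one₀ (norm_nonneg _) hn) one_lt_two
      · rw [abs_of_nonneg ht0]; linarith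
  have hup := upper_bound (T := T) ha hT0 hTa hρ (by linarith) h1 h2
  have hlo := lower_bound ha.le
  refine lt_of_le_of_lt ((measure_mono hsub).trans hup) (lt_of_lt_of_le ?_ hlo)
  rw [ENNReal.ofReal_lt_ofReal_iff (by positivity)]
  have hπ := Real.pi_lt_d2
  have hπ0 := Real.pi_pos
  have h4 : (2 * Real.pi) ^ 4 ≤ (2 * 3.15) ^ 4 := by gcongr
  have h5 : 9 ^ 4 * (2 * Real.pi) ^ 4 * a * ρ ≤ 9 ^ 4 * (2 * 3.15) ^ 4 * a * (1 / 6561 / 1600) := by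
    gcongr
  refine lt_of_le_of_lt h5 ?_
  norm_num
  nlinarith

end Pool.Agent.Helper10_Oh
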