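import Mathlib

set_option autoImplicit false

namespace Pool.Agent.Helper10_Oh

open Set Filter Topology Metric MeasureTheory
open scoped NNReal ENNReal MeasureTheory

abbrev E4 : Type := EuclideanSpace ℂ (Fin 4)

/-- the unit complex number `e^{ix}` -/
noncomputable def ex (x : ℝ) : ℂ := Complex.exp (Complex.I * x)

lemma ex_add (x y : ℝ) : ex (x + y) = ex x * ex y := by
  unfold ex
  rw [← Complex.exp_add]
  congr 1
  push_cast
  ring

lemma norm_ex (x : ℝ) : ‖ex x‖ = 1 := by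
  unfold ex
  rw [mul_comm]
  exact Complex.norm_exp_ofReal_mul_I x

lemma ex_lip (x y : ℝ) : ‖ex x - ex y‖ ≤ |x - y| := by
  have h : ex x = ex y * ex (x - y) := by
    rw [← ex_add]; congr 1; ring
  have h2 : ex x - ex y = ex y * (ex (x - y) - 1) := by rw [h]; ring
  rw [h2, norm_mul, norm_ex, one_mul]
  exact Real.norm_exp_I_mul_ofReal_sub_one_le

lemma ex_re (x : ℝ) : (ex x).re = Real.cos x := by
  unfold ex
  rw [mul_comm, Complex.exp_ofReal_mul_I_re]

lemma ex_arg {c : ℂ} (hc : ‖c‖ = 1) : ex (Complex.arg c) = c := by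
  have := Complex.norm_mul_exp_arg_mul_I c
  rw [hc] at this
  unfold ex
  rw [mul_comm]
  simpa using this

lemma cos_lip (x y : ℝ) : |Real.cos x - Real.cos y| ≤ |x - y| := by
  rw [← ex_re, ← ex_re, ← Complex.sub_re]
  exact (Complex.abs_re_le_norm _).trans (ex_lip x y)

/-- the product torus `T(a,b,b,b)` -/
def Tor (a b : ℝ) : Set E4 := {z | ∀ i : Fin 4, ‖z i‖ = if (i : ℕ) < 1 then a else b}

/-- the translated torus -/
def Tor' (a T : ℝ) : Set E4 :=
  {w | ∃ e1 e2 e3 ζ : ℂ, ‖e1‖ = 1 ∧ ‖e2‖ = 1 ∧ ‖e3‖ = 1 ∧ ‖ζ‖ = a ∧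
    w = WithLp.toLp 2 ![((T : ℂ) + ζ) * (e1 * e2 * e3),
      e1 * (√(1 - 2 * T * ζ.re - T ^ 2) : ℝ), e2 * (√(1 - 2 * T * ζ.re - T ^ 2) : ℝ),
      e3 * (√(1 - 2 * T * ζ.re - T ^ 2) : ℝ)]}

/-- the projection to the real parts -/
def prj (z : E4) : Fin 4 → ℝ := fun i => (z i).re

lemma prj_lip : LipschitzWith 1 prj := by
  refine LipschitzWith.of_dist_le_mul fun z w => ?_
  rw [NNReal.coe_one, one_mul, dist_pi_le_iff dist_nonneg]
  intro i
  rw [Real.dist_eq, dist_eq_norm]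
  unfold prj
  rw [← Complex.sub_re]
  refine (Complex.abs_re_le_norm _).trans ?_
  exact PiLp.norm_apply_le (z - w) i

lemma lower_bound {a : ℝ} (ha : 0 ≤ a) :
    ENNReal.ofReal (16 * a) ≤ μH[((4 : ℕ) : ℝ)] (Tor a 1) := by
  have h1 := prj_lip.hausdorffMeasure_image_le (d := ((4 : ℕ) : ℝ)) (by positivity) (Tor a 1)
  rw [ENNReal.coe_one, ENNReal.one_rpow, one_mul] at h1
  refine le_trans ?_ h1
  have h2 : (μH[((4 : ℕ) : ℝ)] : Measure (Fin 4 → ℝ)) = volume := by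
    have := hausdorffMeasure_pi_real (ι := Fin 4)
    rwa [Fintype.card_fin] at this
  rw [h2]
  set r : Fin 4 → ℝ := fun i => if (i : ℕ) < 1 then a else 1 with hr
  have hr0 : ∀ i, 0 ≤ r i := by
    intro i
    simp only [hr]
    split_ifs
    · exact ha
    · exact zero_le_one
  have h3 : Icc (-r) r ⊆ prj '' (Tor a 1) := by
    intro x hx
    have hx' : ∀ i, x i ^ 2 ≤ r i ^ 2 := by
      intro i
      have h4 := hx.1 i
      have h5 := hx.2 i
      simp only [Pi.neg_apply] at h4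
      exact sq_le_sq' h4 h5
    refine ⟨WithLp.toLp 2 (fun i => (⟨x i, √(r i ^ 2 - x i ^ 2)⟩ : ℂ)), ?_, ?_⟩
    · intro i
      change ‖(⟨x i, √(r i ^ 2 - x i ^ 2)⟩ : ℂ)‖ = r i
      rw [Complex.norm_def, Complex.normSq_mk, Real.mul_self_sqrt (by linarith [hx' i])]
      have : x i * x i + (r i ^ 2 - x i ^ 2) = r i ^ 2 := by ring
      rw [this, Real.sqrt_sq (hr0 i)]
    · rfl
  refine le_trans (le_of_eq ?_) (measure_mono h3)
  rw [Real.volume_Icc_pi, ← ENNReal.ofReal_prod_of_nonneg]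
  · congr 1
    rw [Fin.prod_univ_four]
    simp only [hr, Pi.neg_apply]
    norm_num
    ring
  · intro i _
    have := hr0 i
    simp only [Pi.neg_apply]
    linarith

section Upper

variable {a T ρ : ℝ}

/-- the parametrization -/
noncomputable def FF (a T ρ : ℝ) (x : Fin 4 → ℝ) : E4 :=
  WithLp.toLp 2 ![((T : ℂ) + a * ex (ρ / a * x 0)) * ex (x 1),
    ex (x 2 / ρ) * (√(1 - 2 * T * (a * Real.cos (ρ / a * x 0)) - T ^ 2) : ℝ),
    ex (x 3 / ρ) * (√(1 - 2 * T * (a * Real.cos (ρ / a * x 0)) - T ^ 2) : ℝ),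
    ex (x 1 - x 2 / ρ - x 3 / ρ) * (√(1 - 2 * T * (a * Real.cos (ρ / a * x 0)) - T ^ 2) : ℝ)]

lemma prod_lip {p q : ℂ} {p' q' : ℂ} {A B C D : ℝ} (h1 : ‖p - p'‖ ≤ A) (h2 : ‖q‖ ≤ B)
    (h3 : ‖p'‖ ≤ C) (h4 : ‖q - q'‖ ≤ D) (hA : 0 ≤ A) (hC : 0 ≤ C) :
    ‖p * q - p' * q'‖ ≤ A * B + C * D := by
  have : p * q - p' * q' = (p - p') * q + p' * (q - q') := by ring
  rw [this]
  refine (norm_add_le _ _).trans ?_
  rw [norm_mul, norm_mul]
  gcongr

lemma FF_lip (ha : 0 < a) (hT : 0 ≤ T) (hTa : T + a ≤ 1) (hρ : 0 < ρ) (hρ1 : ρ ≤ 1)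
    (h1 : ρ ^ 2 ≤ 1 - 2 * T * a - T ^ 2) (h2 : 1 + 2 * T * a - T ^ 2 ≤ 4 * ρ ^ 2) :
    LipschitzWith 9 (FF a T ρ) := by
  refine LipschitzWith.of_dist_le_mul fun x y => ?_
  rw [dist_eq_norm, dist_eq_norm]
  set d := ‖x - y‖ with hd
  have hd0 : 0 ≤ d := norm_nonneg _
  have hc : ∀ i, |x i - y i| ≤ d := fun i => norm_le_pi_norm (x - y) i
  set R : ℝ → ℝ := fun s => √(1 - 2 * T * (a * Real.cos (ρ / a * s)) - T ^ 2) with hR
  have harg : ∀ s, ρ ^ 2 ≤ 1 - 2 * T * (a * Real.cos (ρ / a * s)) - T ^ 2 ∧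
      1 - 2 * T * (a * Real.cos (ρ / a * s)) - T ^ 2 ≤ 4 * ρ ^ 2 := by
    intro s
    have h3 := Real.cos_le_one (ρ / a * s)
    have h4 := Real.neg_one_le_cos (ρ / a * s)
    have hTa' : 0 ≤ T * a := by positivity
    constructor <;> nlinarith
  have hRl : ∀ s, ρ ≤ R s := fun s => Real.le_sqrt_of_sq_le (harg s).1
  have hRu : ∀ s, R s ≤ 2 * ρ := by
    intro s
    refine Real.sqrt_le_iff.mpr ⟨by positivity, ?_⟩
    have := (harg s).2
    nlinarith
  have hRlip : |R (x 0) - R (y 0)| ≤ d := by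
    have h3 : R (x 0) ^ 2 - R (y 0) ^ 2 = 2 * T * a *
        (Real.cos (ρ / a * y 0) - Real.cos (ρ / a * x 0)) := by
      simp only [hR]
      rw [Real.sq_sqrt (le_trans (by positivity) (harg _).1),
        Real.sq_sqrt (le_trans (by positivity) (harg _).1)]
      ring
    have h4 : |R (x 0) - R (y 0)| * (R (x 0) + R (y 0)) = |R (x 0) ^ 2 - R (y 0) ^ 2| := by
      have h5 : R (x 0) ^ 2 - R (y 0) ^ 2 = (R (x 0) - R (y 0)) * (R (x 0) + R (y 0)) := by ring
      rw [h5, abs_mul, abs_of_nonneg (a := R (x 0) + R (y 0))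
        (by linarith [hRl (x 0), hRl (y 0)])]
    have h5 : |R (x 0) ^ 2 - R (y 0) ^ 2| ≤ 2 * T * ρ * d := by
      rw [h3, abs_mul, abs_of_nonneg (by positivity : 0 ≤ 2 * T * a)]
      have h6 := cos_lip (ρ / a * y 0) (ρ / a * x 0)
      have h7 : |ρ / a * y 0 - ρ / a * x 0| ≤ ρ / a * d := by
        rw [← mul_sub, abs_mul, abs_of_nonneg (by positivity : 0 ≤ ρ / a), abs_sub_comm]
        have := hc 0
        gcongr
      calc 2 * T * a * |Real.cos (ρ / a * y 0) - Real.cos (ρ / a * x 0)|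
          ≤ 2 * T * a * (ρ / a * d) := by gcongr; exact h6.trans h7
        _ = 2 * T * ρ * d := by field_simp
    have h6 : |R (x 0) - R (y 0)| * (2 * ρ) ≤ 2 * T * ρ * d := by
      rw [← h4] at h5
      refine le_trans ?_ h5
      have h7 : 2 * ρ ≤ R (x 0) + R (y 0) := by linarith [hRl (x 0), hRl (y 0)]
      gcongr
    have hT1 : T ≤ 1 := by linarith
    have h7 : |R (x 0) - R (y 0)| * (2 * ρ) ≤ d * (2 * ρ) := by
      refine h6.trans ?_
      nlinarith [mul_nonneg hρ.le hd0]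
    exact le_of_mul_le_mul_right h7 (by positivity)
  -- coordinate bounds
  have hRc : ‖((R (x 0) : ℝ) : ℂ) - ((R (y 0) : ℝ) : ℂ)‖ ≤ d := by
    rw [← Complex.ofReal_sub, Complex.norm_real]
    exact hRlip
  have hRn : ∀ s, ‖((R s : ℝ) : ℂ)‖ ≤ 2 * ρ := by
    intro s
    rw [Complex.norm_real, Real.norm_of_nonneg (by linarith [hRl s])]
    exact hRu s
  have hu : ‖((T : ℂ) + a * ex (ρ / a * x 0)) - ((T : ℂ) + a * ex (ρ / a * y 0))‖ ≤ ρ * d := by
    have : ((T : ℂ) + a * ex (ρ / a * x 0)) - ((T : ℂ) + a * ex (ρ / a * y 0)) =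
        a * (ex (ρ / a * x 0) - ex (ρ / a * y 0)) := by ring
    rw [this, norm_mul, Complex.norm_real, Real.norm_of_nonneg ha.le]
    have h3 := ex_lip (ρ / a * x 0) (ρ / a * y 0)
    rw [← mul_sub, abs_mul, abs_of_nonneg (by positivity : 0 ≤ ρ / a)] at h3
    calc a * ‖ex (ρ / a * x 0) - ex (ρ / a * y 0)‖ ≤ a * (ρ / a * |x 0 - y 0|) := by gcongr
      _ ≤ a * (ρ / a * d) := by have := hc 0; gcongr
      _ = ρ * d := by field_simp
  have hun : ∀ s, ‖(T : ℂ) + a * ex s‖ ≤ 1 := by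
    intro s
    refine (norm_add_le _ _).trans ?_
    rw [norm_mul, norm_ex, Complex.norm_real, Complex.norm_real, Real.norm_of_nonneg hT,
      Real.norm_of_nonneg ha.le]
    linarith
  have hdρ : d / ρ * (2 * ρ) = 2 * d := by field_simp
  have c0 : ‖(FF a T ρ x - FF a T ρ y) 0‖ ≤ 2 * d := by
    have h3 := prod_lip hu (norm_ex (x 1)).le (hun (ρ / a * y 0)) ((ex_lip (x 1) (y 1)).trans (hc 1))
      (by positivity) zero_le_one
    refine le_trans h3 ?_
    nlinarith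
  have c1 : ‖(FF a T ρ x - FF a T ρ y) 1‖ ≤ 3 * d := by
    have h4 : ‖ex (x 2 / ρ) - ex (y 2 / ρ)‖ ≤ d / ρ := by
      refine (ex_lip _ _).trans ?_
      rw [← sub_div, abs_div, abs_of_pos hρ]
      have := hc 2
      gcongr
    have h3 := prod_lip h4 (hRn (x 0)) (norm_ex (y 2 / ρ)).le hRc (by positivity) zero_le_one
    refine le_trans h3 ?_
    linarith
  have c2 : ‖(FF a T ρ x - FF a T ρ y) 2‖ ≤ 3 * d := by
    have h4 : ‖ex (x 3 / ρ) - ex (y 3 / ρ)‖ ≤ d / ρ := by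
      refine (ex_lip _ _).trans ?_
      rw [← sub_div, abs_div, abs_of_pos hρ]
      have := hc 3
      gcongr
    have h3 := prod_lip h4 (hRn (x 0)) (norm_ex (y 3 / ρ)).le hRc (by positivity) zero_le_one
    refine le_trans h3 ?_
    linarith
  have c3 : ‖(FF a T ρ x - FF a T ρ y) 3‖ ≤ 7 * d := by
    have h4 : ‖ex (x 1 - x 2 / ρ - x 3 / ρ) - ex (y 1 - y 2 / ρ - y 3 / ρ)‖ ≤
        d + d / ρ + d / ρ := by
      refine (ex_lip _ _).trans ?_
      have h5 : x 1 - x 2 / ρ - x 3 / ρ - (y 1 - y 2 / ρ - y 3 / ρ) =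
          (x 1 - y 1) - (x 2 - y 2) / ρ - (x 3 - y 3) / ρ := by ring
      rw [h5]
      refine (abs_sub _ _).trans (add_le_add ((abs_sub _ _).trans (add_le_add (hc 1) ?_)) ?_)
      · rw [abs_div, abs_of_pos hρ]
        have := hc 2
        gcongr
      · rw [abs_div, abs_of_pos hρ]
        have := hc 3
        gcongr
    have h3 := prod_lip h4 (hRn (x 0)) (norm_ex (y 1 - y 2 / ρ - y 3 / ρ)).le hRc
      (by positivity) zero_le_one
    refine le_trans h3 ?_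
    have h6 : (d + d / ρ + d / ρ) * (2 * ρ) = 2 * ρ * d + 2 * d + 2 * d := by
      field_simp
    rw [h6]
    nlinarith
  rw [EuclideanSpace.norm_eq, Fin.sum_univ_four]
  refine Real.sqrt_le_iff.mpr ⟨by positivity, ?_⟩
  have q0 := pow_le_pow_left₀ (norm_nonneg _) c0 2
  have q1 := pow_le_pow_left₀ (norm_nonneg _) c1 2
  have q2 := pow_le_pow_left₀ (norm_nonneg _) c2 2
  have q3 := pow_le_pow_left₀ (norm_nonneg _) c3 2
  have hd2 : 0 ≤ d ^ 2 := by positivity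
  have : ((9 : ℝ≥0) : ℝ) = 9 := by norm_num
  rw [this]
  nlinarith

lemma Tor'_subset (ha : 0 < a) (hρ : 0 < ρ) :
    Tor' a T ⊆ FF a T ρ '' (Icc (-![Real.pi * a / ρ, Real.pi, Real.pi * ρ, Real.pi * ρ])
      ![Real.pi * a / ρ, Real.pi, Real.pi * ρ, Real.pi * ρ]) := by
  rintro w ⟨e1, e2, e3, ζ, h1, h2, h3, h4, rfl⟩
  have hπ := Real.pi_pos
  refine ⟨![a / ρ * Complex.arg ζ, Complex.arg (e1 * e2 * e3), Complex.arg e1 * ρ,
    Complex.arg e2 * ρ], ?_, ?_⟩
  · have habs : ∀ z : ℂ, |Complex.arg z| ≤ Real.pi := Complex.abs_arg_le_pi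
    rw [mem_Icc, Pi.le_def, Pi.le_def]
    have key : ∀ i : Fin 4, |(![a / ρ * Complex.arg ζ, Complex.arg (e1 * e2 * e3),
        Complex.arg e1 * ρ, Complex.arg e2 * ρ] : Fin 4 → ℝ) i| ≤
        (![Real.pi * a / ρ, Real.pi, Real.pi * ρ, Real.pi * ρ] : Fin 4 → ℝ) i := by
      intro i
      fin_cases i
      · change |a / ρ * Complex.arg ζ| ≤ Real.pi * a / ρ
        rw [abs_mul, abs_of_pos (by positivity)]
        have := habs ζ
        calc a / ρ * |Complex.arg ζ| ≤ a / ρ * Real.pi := by gcongr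
          _ = Real.pi * a / ρ := by ring
      · exact habs _
      · change |Complex.arg e1 * ρ| ≤ Real.pi * ρ
        rw [abs_mul, abs_of_pos hρ]
        have := habs e1
        gcongr
      · change |Complex.arg e2 * ρ| ≤ Real.pi * ρ
        rw [abs_mul, abs_of_pos hρ]
        have := habs e2
        gcongr
    constructor
    · intro i
      exact (abs_le.mp (key i)).1
    · intro i
      exact (abs_le.mp (key i)).2
  · have hprod : ‖e1 * e2 * e3‖ = 1 := by simp [h1, h2, h3]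
    have ez : (a : ℂ) * ex (ρ / a * (a / ρ * Complex.arg ζ)) = ζ := by
      have h5 : ρ / a * (a / ρ * Complex.arg ζ) = Complex.arg ζ := by field_simp
      have h6 := Complex.norm_mul_exp_arg_mul_I ζ
      rw [h4] at h6
      rw [h5]
      unfold ex
      rw [mul_comm Complex.I]
      exact h6
    have er : a * Real.cos (ρ / a * (a / ρ * Complex.arg ζ)) = ζ.re := by
      have := congrArg Complex.re ez
      rw [Complex.re_ofReal_mul, ex_re] at this
      exact this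
    have e1' : ex (Complex.arg e1 * ρ / ρ) = e1 := by
      rw [mul_div_cancel_right₀ _ hρ.ne']; exact ex_arg h1
    have e2' : ex (Complex.arg e2 * ρ / ρ) = e2 := by
      rw [mul_div_cancel_right₀ _ hρ.ne']; exact ex_arg h2
    have e3' : ex (Complex.arg (e1 * e2 * e3) - Complex.arg e1 * ρ / ρ -
        Complex.arg e2 * ρ / ρ) = e3 := by
      have h5 : ex (Complex.arg (e1 * e2 * e3) - Complex.arg e1 * ρ / ρ -
        Complex.arg e2 * ρ / ρ) * (e1 * e2) = e1 * e2 * e3 := by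
        calc ex (Complex.arg (e1 * e2 * e3) - Complex.arg e1 * ρ / ρ -
              Complex.arg e2 * ρ / ρ) * (e1 * e2)
            = ex (Complex.arg (e1 * e2 * e3) - Complex.arg e1 * ρ / ρ -
              Complex.arg e2 * ρ / ρ) *
              (ex (Complex.arg e1 * ρ / ρ) * ex (Complex.arg e2 * ρ / ρ)) := by rw [e1', e2']
          _ = ex (Complex.arg (e1 * e2 * e3)) := by
              rw [← ex_add, ← ex_add]; congr 1; ring
          _ = e1 * e2 * e3 := ex_arg hprod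
      have h6 : e1 * e2 ≠ 0 := by
        rw [← norm_ne_zero_iff, norm_mul, h1, h2]; norm_num
      have h7 : (ex (Complex.arg (e1 * e2 * e3) - Complex.arg e1 * ρ / ρ -
        Complex.arg e2 * ρ / ρ) - e3) * (e1 * e2) = 0 := by
        rw [sub_mul, h5]; ring
      rcases mul_eq_zero.mp h7 with h8 | h8
      · exact sub_eq_zero.mp h8
      · exact absurd h8 h6
    unfold FF
    congr 1
    funext i
    fin_cases i
    · change ((T : ℂ) + a * ex (ρ / a * (a / ρ * Complex.arg ζ))) *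
        ex (Complex.arg (e1 * e2 * e3)) = ((T : ℂ) + ζ) * (e1 * e2 * e3)
      rw [ez, ex_arg hprod]
    · change ex (Complex.arg e1 * ρ / ρ) * (√(1 - 2 * T * (a * Real.cos
        (ρ / a * (a / ρ * Complex.arg ζ))) - T ^ 2) : ℝ) = e1 * (√(1 - 2 * T * ζ.re - T ^ 2) : ℝ)
      rw [e1', er]
    · change ex (Complex.arg e2 * ρ / ρ) * (√(1 - 2 * T * (a * Real.cos
        (ρ / a * (a / ρ * Complex.arg ζ))) - T ^ 2) : ℝ) = e2 * (√(1 - 2 * T * ζ.re - T ^ 2) : ℝ)
      rw [e2', er]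
    · change ex (Complex.arg (e1 * e2 * e3) - Complex.arg e1 * ρ / ρ -
        Complex.arg e2 * ρ / ρ) * (√(1 - 2 * T * (a * Real.cos
        (ρ / a * (a / ρ * Complex.arg ζ))) - T ^ 2) : ℝ) = e3 * (√(1 - 2 * T * ζ.re - T ^ 2) : ℝ)
      rw [e3', er]

lemma upper_bound (ha : 0 < a) (hT : 0 ≤ T) (hTa : T + a ≤ 1) (hρ : 0 < ρ) (hρ1 : ρ ≤ 1)
    (h1 : ρ ^ 2 ≤ 1 - 2 * T * a - T ^ 2) (h2 : 1 + 2 * T * a - T ^ 2 ≤ 4 * ρ ^ 2) :
    μH[((4 : ℕ) : ℝ)] (Tor' a T) ≤ ENNReal.ofReal (9 ^ 4 * (2 * Real.pi) ^ 4 * a * ρ) := by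
  have hπ := Real.pi_pos
  refine (measure_mono (Tor'_subset (T := T) ha hρ)).trans ?_
  refine ((FF_lip ha hT hTa hρ hρ1 h1 h2).hausdorffMeasure_image_le (d := ((4 : ℕ) : ℝ))
    (by positivity) _).trans ?_
  have h3 : (μH[((4 : ℕ) : ℝ)] : Measure (Fin 4 → ℝ)) = volume := by
    have := hausdorffMeasure_pi_real (ι := Fin 4)
    rwa [Fintype.card_fin] at this
  rw [h3, Real.volume_Icc_pi, ← ENNReal.ofReal_prod_of_nonneg, ENNReal.rpow_natCast]
  · have h4 : ((9 : ℝ≥0) : ℝ≥0∞) ^ 4 = ENNReal.ofReal (9 ^ 4) := by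
      rw [ENNReal.ofReal_pow (by norm_num)]
      congr 1
      rw [← ENNReal.ofReal_coe_nnreal]
      norm_num
    rw [h4, ← ENNReal.ofReal_mul (by positivity)]
    refine ENNReal.ofReal_le_ofReal (le_of_eq ?_)
    rw [Fin.prod_univ_four]
    change 9 ^ 4 * ((Real.pi * a / ρ - -(Real.pi * a / ρ)) * (Real.pi - - Real.pi) *
      (Real.pi * ρ - -(Real.pi * ρ)) * (Real.pi * ρ - -(Real.pi * ρ))) = _
    field_simp
    ring
  · intro i _
    fin_cases i
    · change 0 ≤ Real.pi * a / ρ - -(Real.pi * a / ρ)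
      rw [sub_neg_eq_add]; positivity
    · change 0 ≤ Real.pi - - Real.pi
      rw [sub_neg_eq_add]; positivity
    · change 0 ≤ Real.pi * ρ - -(Real.pi * ρ)
      rw [sub_neg_eq_add]; positivity
    · change 0 ≤ Real.pi * ρ - -(Real.pi * ρ)
      rw [sub_neg_eq_add]; positivity

end Upper

end Pool.Agent.Helper10_Oh
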