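import Pool.Agent.Helper10_Oh.ODE
import Pool.Agent.Helper10_Oh.Meas

set_option autoImplicit false

namespace Pool.Agent.Helper10_Oh

open Set Filter Topology Metric MeasureTheory
open scoped NNReal ENNReal MeasureTheory ContDiff

/-- symplectic gradient of a real-linear functional -/
noncomputable def JJ (L : E4 →L[ℝ] ℝ) : E4 :=
  (-Complex.I) • ((InnerProductSpace.toDual ℝ E4).symm L)

lemma im_inner_JJ (L : E4 →L[ℝ] ℝ) (w : E4) : (inner ℂ (JJ L) w).im = L w := by
  set g := (InnerProductSpace.toDual ℝ E4).symm L with hg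
  have h1 : inner ℝ g w = L w := InnerProductSpace.toDual_symm_apply
  rw [← h1]
  unfold JJ
  rw [← hg, inner_smul_left, PiLp.inner_apply, PiLp.inner_apply]
  have h2 : (starRingEnd ℂ) (-Complex.I) = Complex.I := by simp
  rw [h2, Complex.I_mul_im, Complex.re_sum]
  refine Finset.sum_congr rfl fun i _ => ?_
  rw [Complex.inner, RCLike.inner_apply]

lemma im_inner_inj {v v' : E4} (h : ∀ w : E4, (inner ℂ v w).im = (inner ℂ v' w).im) : v = v' := by
  have h1 := h (Complex.I • (v - v'))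
  have h2 : (inner ℂ (v - v') (Complex.I • (v - v'))).im = 0 := by
    rw [inner_sub_left, Complex.sub_im, h1, sub_self]
  rw [inner_smul_right, inner_self_eq_norm_sq_to_K] at h2
  have h3 : ‖v - v'‖ ^ 2 = 0 := by
    have : (Complex.I * ((‖v - v'‖ : ℝ) : ℂ) ^ 2).im = ‖v - v'‖ ^ 2 := by
      rw [← Complex.ofReal_pow, Complex.I_mul_im, Complex.ofReal_re]
    rw [← this]
    exact h2
  have h4 : ‖v - v'‖ = 0 := by
    exact pow_eq_zero_iff (two_ne_zero) |>.mp h3
  exact sub_eq_zero.mp (norm_eq_zero.mp h4)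

lemma norm_JJ_sub (L L' : E4 →L[ℝ] ℝ) : ‖JJ L - JJ L'‖ = ‖L - L'‖ := by
  unfold JJ
  rw [← smul_sub, norm_smul, ← map_sub, LinearIsometryEquiv.norm_map]
  simp

lemma norm_JJ (L : E4 →L[ℝ] ℝ) : ‖JJ L‖ = ‖L‖ := by
  unfold JJ
  rw [norm_smul, LinearIsometryEquiv.norm_map]
  simp

/-- existence of the flow, with uniqueness of trajectories -/
lemma exists_flow (H : ℝ → E4 → ℝ) (hH : ContDiff ℝ ∞ (Function.uncurry H))
    (hc : HasCompactSupport (Function.uncurry H)) :
    ∃ φ : ℝ → E4 → E4, (∀ x, φ 0 x = x) ∧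
      (∀ (t : ℝ) (x : E4), ∃ v : E4, HasDerivAt (fun s => φ s x) v t ∧
        ∀ w : E4, fderiv ℝ (H t) (φ t x) w = (inner ℂ v w).im) ∧
      (∀ c : ℝ → E4, (∀ t ∈ Icc (0 : ℝ) 1, ∃ v : E4, HasDerivAt c v t ∧
        ∀ w : E4, fderiv ℝ (H t) (c t) w = (inner ℂ v w).im) → φ 1 (c 0) = c 1) := by
  set X : ℝ → E4 → E4 := fun t z => JJ (fderiv ℝ (H t) z) with hX
  have hd : Differentiable ℝ (Function.uncurry H) := hH.differentiable (by simp)
  have hfd : ∀ t z, fderiv ℝ (H t) z =
      (fderiv ℝ (Function.uncurry H) (t, z)).comp (ContinuousLinearMap.inr ℝ ℝ E4) := by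
    intro t z
    have h1 : HasFDerivAt (fun z : E4 => (t, z)) (ContinuousLinearMap.inr ℝ ℝ E4) z :=
      hasFDerivAt_prodMk_right t z
    exact ((hd (t, z)).hasFDerivAt.comp z h1).fderiv
  have hsm : ContDiff ℝ ∞ (fderiv ℝ (Function.uncurry H)) :=
    hH.fderiv_right (m := ∞) (by simp)
  have hcs : HasCompactSupport (fderiv ℝ (Function.uncurry H)) := hc.fderiv ℝ
  obtain ⟨K, hK⟩ := ContDiff.lipschitzWith_of_hasCompactSupport hcs hsm (by simp)
  obtain ⟨L, hL⟩ := hcs.exists_bound_of_continuous hsm.continuous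
  have hinr : ‖ContinuousLinearMap.inr ℝ ℝ E4‖ ≤ 1 := by
    refine ContinuousLinearMap.opNorm_le_bound _ zero_le_one fun z => ?_
    simp
  have hXK : ∀ t, LipschitzWith K (X t) := by
    intro t
    refine LipschitzWith.of_dist_le_mul fun y z => ?_
    rw [dist_eq_norm, hX]
    simp only
    rw [norm_JJ_sub, hfd, hfd, ← ContinuousLinearMap.sub_comp]
    refine (ContinuousLinearMap.opNorm_comp_le _ _).trans ?_
    have h1 := hK.dist_le_mul (t, y) (t, z)
    rw [dist_eq_norm, Prod.dist_eq, dist_self, max_eq_right dist_nonneg] at h1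
    calc _ ≤ ‖fderiv ℝ (Function.uncurry H) (t, y) - fderiv ℝ (Function.uncurry H) (t, z)‖ * 1 := by
          gcongr
      _ ≤ _ := by rw [mul_one]; exact h1
  have hXL : ∀ t x, ‖X t x‖ ≤ (Real.toNNReal L : ℝ≥0) := by
    intro t x
    rw [hX]
    simp only
    rw [norm_JJ, hfd]
    refine (ContinuousLinearMap.opNorm_comp_le _ _).trans ?_
    have h1 := hL (t, x)
    calc _ ≤ ‖fderiv ℝ (Function.uncurry H) (t, x)‖ * 1 := by gcongr
      _ ≤ L := by rw [mul_one]; exact h1
      _ ≤ _ := Real.le_coe_toNNReal L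
  have hXc : ∀ x, Continuous fun t => X t x := by
    intro x
    rw [hX]
    simp only
    unfold JJ
    have h1 : Continuous fun t : ℝ => fderiv ℝ (H t) x := by
      simp_rw [hfd]
      have h2 : Continuous fun t : ℝ => fderiv ℝ (Function.uncurry H) (t, x) :=
        hsm.continuous.comp (by fun_prop)
      exact h2.clm_comp continuous_const
    have h3 : Continuous fun t : ℝ =>
        (InnerProductSpace.toDual ℝ E4).symm (fderiv ℝ (H t) x) :=
      (InnerProductSpace.toDual ℝ E4).symm.continuous.comp h1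
    exact h3.const_smul (-Complex.I)
  choose α hα0 hα using exists_global X K (Real.toNNReal L) hXK hXc hXL
  refine ⟨fun t x => α x t, hα0, fun t x => ⟨X t (α x t), hα x t, fun w => ?_⟩, fun c hcc => ?_⟩
  · rw [hX]
    exact (im_inner_JJ _ _).symm
  · have h1 : ∀ t ∈ Icc (0 : ℝ) 1, HasDerivAt c (X t (c t)) t := by
      intro t ht
      obtain ⟨v, hv, hv'⟩ := hcc t ht
      have : v = X t (c t) := by
        apply im_inner_inj
        intro w
        rw [← hv', hX]
        exact (im_inner_JJ _ _).symm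
      rwa [← this]
    have h2 := ODE_solution_unique (v := X) (K := K) (f := α (c 0)) (g := c) (a := 0) (b := 1) hXK
      (fun t _ => (hα (c 0) t).continuousAt.continuousWithinAt)
      (fun t _ => (hα (c 0) t).hasDerivWithinAt)
      (fun t ht => (h1 t ht).continuousAt.continuousWithinAt)
      (fun t ht => (h1 t ⟨ht.1, ht.2.le⟩).hasDerivWithinAt) (hα0 _)
    exact h2 (right_mem_Icc.mpr zero_le_one)

end Pool.Agent.Helper10_Oh
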