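import Pool.Agent.Helper10_Oh.Flow

set_option autoImplicit false

namespace Pool.Agent.Helper10_Oh

open Set Filter Topology Metric MeasureTheory
open scoped NNReal ENNReal MeasureTheory ContDiff

/-- the bump used to cut off `1/√s` -/
noncomputable def bmp (δ : ℝ) (h0 : 0 < δ) (h1 : δ < 1) : ContDiffBump (1 : ℝ) where
  rIn := 1 - δ
  rOut := 1 - δ / 2
  rIn_pos := by linarith
  rIn_lt_rOut := by linarith

/-- bump at the origin -/
noncomputable def bmp0 : ContDiffBump (0 : ℝ) where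
  rIn := 2
  rOut := 3
  rIn_pos := by norm_num
  rIn_lt_rOut := by norm_num

section

variable {δ : ℝ} (h0 : 0 < δ) (h1 : δ < 1)

noncomputable def kap (s : ℝ) : ℝ := bmp δ h0 h1 s * (√s)⁻¹

lemma kap_contDiff : ContDiff ℝ ∞ (kap h0 h1) := by
  rw [contDiff_iff_contDiffAt]
  intro s
  rcases lt_or_ge (δ / 4) s with h | h
  · have hs : s ≠ 0 := by linarith
    have h2 : ContDiffAt ℝ ∞ (fun s : ℝ => (√s)⁻¹) s := by
      refine ContDiffAt.inv (Real.contDiffAt_sqrt hs) ?_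
      have : 0 < √s := Real.sqrt_pos.mpr (by linarith)
      exact this.ne'
    exact (bmp δ h0 h1).contDiffAt.mul h2
  · have h2 : kap h0 h1 =ᶠ[𝓝 s] fun _ => 0 := by
      have h3 : Iio (δ / 2) ∈ 𝓝 s := Iio_mem_nhds (by linarith)
      filter_upwards [h3] with x hx
      unfold kap
      rw [(bmp δ h0 h1).zero_of_le_dist, zero_mul]
      rw [Real.dist_eq]
      change 1 - δ / 2 ≤ |x - 1|
      rw [abs_sub_comm]
      have : x < δ / 2 := hx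
      exact le_trans (by linarith) (le_abs_self _)
    exact contDiffAt_const.congr_of_eventuallyEq h2

lemma kap_eq_zero {s : ℝ} (hs : 2 ≤ s) : kap h0 h1 s = 0 := by
  unfold kap
  rw [(bmp δ h0 h1).zero_of_le_dist, zero_mul]
  rw [Real.dist_eq]
  change 1 - δ / 2 ≤ |s - 1|
  exact le_trans (by linarith) (le_abs_self _)

lemma kap_eq {s : ℝ} (hs : δ < s) (hs' : s < 2 - δ) : kap h0 h1 =ᶠ[𝓝 s] fun s => (√s)⁻¹ := by
  have h3 : Ioo δ (2 - δ) ∈ 𝓝 s := Ioo_mem_nhds hs hs'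
  filter_upwards [h3] with x hx
  unfold kap
  rw [(bmp δ h0 h1).one_of_mem_closedBall, one_mul]
  rw [mem_closedBall, Real.dist_eq, abs_le]
  change -(1 - δ) ≤ x - 1 ∧ x - 1 ≤ 1 - δ
  constructor <;> linarith [hx.1, hx.2]

lemma kap_val {r : ℝ} (hr : 0 < r) (hs : δ < r ^ 2) (hs' : r ^ 2 < 2 - δ) :
    kap h0 h1 (r ^ 2) = r⁻¹ := by
  have := (kap_eq h0 h1 hs hs').self_of_nhds
  simp only [Real.sqrt_sq hr.le] at this
  exact this

lemma kap_hasDerivAt {r : ℝ} (hr : 0 < r) (hs : δ < r ^ 2) (hs' : r ^ 2 < 2 - δ) :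
    HasDerivAt (kap h0 h1) (-(1 / (2 * r ^ 3))) (r ^ 2) := by
  have h2 : HasDerivAt (fun s : ℝ => (√s)⁻¹) (-(1 / (2 * √(r ^ 2))) / (√(r ^ 2)) ^ 2) (r ^ 2) :=
    (Real.hasDerivAt_sqrt (by positivity)).inv (by rw [Real.sqrt_sq hr.le]; positivity)
  rw [Real.sqrt_sq hr.le] at h2
  have h3 : -(1 / (2 * r)) / r ^ 2 = -(1 / (2 * r ^ 3)) := by field_simp
  rw [h3] at h2
  exact h2.congr_of_eventuallyEq (kap_eq h0 h1 hs hs')

/-- the smoothed version of `conj (z/|z|)` -/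
noncomputable def gf (ζ : ℂ) : ℂ := ((kap h0 h1 (‖ζ‖ ^ 2) : ℝ) : ℂ) * (starRingEnd ℂ) ζ

lemma gf_contDiff : ContDiff ℝ ∞ (gf h0 h1) := by
  unfold gf
  have h2 : ContDiff ℝ ∞ (fun ζ : ℂ => kap h0 h1 (‖ζ‖ ^ 2)) :=
    (kap_contDiff h0 h1).comp (contDiff_norm_sq ℝ)
  exact (Complex.ofRealCLM.contDiff.comp h2).mul Complex.conjCLE.contDiff

lemma gf_eq_zero {ζ : ℂ} (hs : 2 ≤ ‖ζ‖ ^ 2) : gf h0 h1 ζ = 0 := by
  unfold gf
  rw [kap_eq_zero h0 h1 hs]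
  simp

lemma gf_val {r : ℝ} {e : ℂ} (hr : 0 < r) (hs : δ < r ^ 2) (hs' : r ^ 2 < 2 - δ) (he : ‖e‖ = 1) :
    gf h0 h1 (e * r) = (starRingEnd ℂ) e := by
  unfold gf
  have h2 : ‖e * (r : ℂ)‖ = r := by
    rw [norm_mul, he, one_mul, Complex.norm_real, Real.norm_of_nonneg hr.le]
  rw [h2, kap_val h0 h1 hr hs hs', map_mul, Complex.conj_ofReal]
  have : (r : ℂ) ≠ 0 := by exact_mod_cast hr.ne'
  push_cast
  field_simp

lemma gf_hasFDerivAt {r : ℝ} {e : ℂ} (hr : 0 < r) (hs : δ < r ^ 2) (hs' : r ^ 2 < 2 - δ)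
    (he : ‖e‖ = 1) : ∃ G : ℂ →L[ℝ] ℂ, HasFDerivAt (gf h0 h1) G (e * r) ∧
      ∀ w : ℂ, G w = -Complex.I * (starRingEnd ℂ) e * (((starRingEnd ℂ) e * w).im / r : ℝ) := by
  have hn : ‖e * (r : ℂ)‖ = r := by
    rw [norm_mul, he, one_mul, Complex.norm_real, Real.norm_of_nonneg hr.le]
  have h2 : HasFDerivAt (fun ζ : ℂ => ‖ζ‖ ^ 2) (2 • (innerSL ℝ) (e * (r : ℂ))) (e * (r : ℂ)) :=
    (hasStrictFDerivAt_norm_sq _).hasFDerivAt
  have h3 : HasDerivAt (kap h0 h1) (-(1 / (2 * r ^ 3))) (‖e * (r : ℂ)‖ ^ 2) := by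
    rw [hn]; exact kap_hasDerivAt h0 h1 hr hs hs'
  have h4 := h3.comp_hasFDerivAt (e * (r : ℂ)) h2
  have h5 := Complex.ofRealCLM.hasFDerivAt.comp (e * (r : ℂ)) h4
  have h6 : HasFDerivAt (fun ζ : ℂ => (starRingEnd ℂ) ζ) (Complex.conjCLE : ℂ →L[ℝ] ℂ)
      (e * (r : ℂ)) := Complex.conjCLE.hasFDerivAt
  have h7 := h5.mul h6
  refine ⟨_, h7, fun w => ?_⟩
  have hk : kap h0 h1 (‖e * (r : ℂ)‖ ^ 2) = r⁻¹ := by
    rw [hn, kap_val h0 h1 hr hs hs']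
  have he2 : e.re * e.re + e.im * e.im = 1 := by
    have := Complex.sq_norm e
    rw [he, Complex.normSq_apply] at this
    linarith
  change ((kap h0 h1 (‖e * (r : ℂ)‖ ^ 2) : ℝ) : ℂ) * (starRingEnd ℂ) w +
    (starRingEnd ℂ) (e * r) * ((-(1 / (2 * r ^ 3)) * (2 • inner ℝ (e * (r : ℂ)) w) : ℝ) : ℂ) = _
  have hA : (-(1 / (2 * r ^ 3)) * (2 • inner ℝ (e * (r : ℂ)) w) : ℝ) =
      -((e.re * w.re + e.im * w.im) / r ^ 2) := by
    rw [Complex.inner]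
    simp only [map_mul, Complex.conj_ofReal, Complex.mul_re, Complex.mul_im, Complex.conj_re,
      Complex.conj_im, Complex.ofReal_re, Complex.ofReal_im, nsmul_eq_mul]
    push_cast
    field_simp
    ring
  rw [hk, hA]
  apply Complex.ext
  · simp only [map_mul, Complex.conj_ofReal, Complex.mul_re, Complex.mul_im, Complex.conj_re,
      Complex.conj_im, Complex.ofReal_re, Complex.ofReal_im, Complex.add_re, Complex.add_im,
      Complex.neg_re, Complex.neg_im, Complex.I_re, Complex.I_im]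
    field_simp
    linear_combination (-(r * w.re)) * he2
  · simp only [map_mul, Complex.conj_ofReal, Complex.mul_re, Complex.mul_im, Complex.conj_re,
      Complex.conj_im, Complex.ofReal_re, Complex.ofReal_im, Complex.add_re, Complex.add_im,
      Complex.neg_re, Complex.neg_im, Complex.I_re, Complex.I_im]
    field_simp
    linear_combination (r * w.im) * he2

/-- the Hamiltonian -/
noncomputable def HH (T : ℝ) (t : ℝ) (z : E4) : ℝ :=
  T * bmp0 t * bmp0 (‖z 0‖ ^ 2) *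
    (z 0 * (gf h0 h1 (z 1) * gf h0 h1 (z 2) * gf h0 h1 (z 3))).im

lemma HH_contDiff (T : ℝ) : ContDiff ℝ ∞ (Function.uncurry (HH h0 h1 T)) := by
  have hc : ∀ i : Fin 4, ContDiff ℝ ∞ (fun q : ℝ × E4 => q.2 i) := by
    intro i
    have h2 : ContDiff ℝ ∞ (fun z : E4 => z i) :=
      (PiLp.proj (𝕜 := ℝ) 2 (fun _ : Fin 4 => ℂ) i).contDiff
    exact h2.comp contDiff_snd
  have hb : ContDiff ℝ ∞ (fun s : ℝ => bmp0 s) := bmp0.contDiff
  have h2 : ContDiff ℝ ∞ (fun q : ℝ × E4 => bmp0 q.1) := hb.comp contDiff_fst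
  have h3 : ContDiff ℝ ∞ (fun q : ℝ × E4 => bmp0 (‖q.2 0‖ ^ 2)) :=
    hb.comp ((contDiff_norm_sq ℝ).comp (hc 0))
  have hg := gf_contDiff h0 h1
  have h4 : ContDiff ℝ ∞ (fun q : ℝ × E4 =>
      (q.2 0 * (gf h0 h1 (q.2 1) * gf h0 h1 (q.2 2) * gf h0 h1 (q.2 3))).im) := by
    have him : ContDiff ℝ ∞ (fun c : ℂ => c.im) := Complex.imCLM.contDiff
    exact him.comp ((hc 0).mul (((hg.comp (hc 1)).mul (hg.comp (hc 2))).mul (hg.comp (hc 3))))
  exact (((contDiff_const (c := T)).mul h2).mul h3).mul h4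

lemma HH_compact (T : ℝ) : HasCompactSupport (Function.uncurry (HH h0 h1 T)) := by
  refine HasCompactSupport.intro (isCompact_closedBall (0 : ℝ × E4) 3) fun q hq => ?_
  by_contra hne
  apply hq
  obtain ⟨t, z⟩ := q
  change HH h0 h1 T t z ≠ 0 at hne
  have hb : ∀ s : ℝ, bmp0 s ≠ 0 → |s| < 3 := by
    intro s hs
    by_contra hc
    push Not at hc
    apply hs
    refine bmp0.zero_of_le_dist ?_
    rw [Real.dist_eq, sub_zero]
    exact hc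
  have ht : bmp0 t ≠ 0 := by
    intro h; apply hne; unfold HH; rw [h]; simp
  have hz0 : bmp0 (‖z 0‖ ^ 2) ≠ 0 := by
    intro h; apply hne; unfold HH; rw [h]; simp
  have hz : ∀ i : Fin 4, i ≠ 0 → ‖z i‖ ^ 2 < 2 := by
    intro i hi
    by_contra hc
    push Not at hc
    apply hne
    unfold HH
    fin_cases i
    · exact absurd rfl hi
    · change 2 ≤ ‖z 1‖ ^ 2 at hc
      rw [gf_eq_zero h0 h1 hc]; simp
    · change 2 ≤ ‖z 2‖ ^ 2 at hc
      rw [gf_eq_zero h0 h1 hc]; simp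
    · change 2 ≤ ‖z 3‖ ^ 2 at hc
      rw [gf_eq_zero h0 h1 hc]; simp
  have h2 := hb t ht
  have h3 := hb _ hz0
  rw [abs_of_nonneg (by positivity)] at h3
  have h4 := hz 1 (by decide)
  have h5 := hz 2 (by decide)
  have h6 := hz 3 (by decide)
  rw [mem_closedBall, dist_zero_right, Prod.norm_def]
  apply max_le
  · exact h2.le
  · rw [EuclideanSpace.norm_eq, Fin.sum_univ_four]
    refine Real.sqrt_le_iff.mpr ⟨by norm_num, ?_⟩
    linarith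

/-- derivative of the Hamiltonian at the relevant points -/
lemma HH_fderiv {T t r : ℝ} {e1 e2 e3 u : ℂ} (hr : 0 < r) (hs : δ < r ^ 2) (hs' : r ^ 2 < 2 - δ)
    (he1 : ‖e1‖ = 1) (he2 : ‖e2‖ = 1) (he3 : ‖e3‖ = 1) (hu : ‖u‖ ^ 2 < 2) (ht : |t| ≤ 2)
    (w : E4) :
    fderiv ℝ (HH h0 h1 T t) (WithLp.toLp 2 ![u * (e1 * e2 * e3), e1 * (r : ℂ), e2 * (r : ℂ),
      e3 * (r : ℂ)]) w =
    (inner ℂ (WithLp.toLp 2 ![(T : ℂ) * (e1 * e2 * e3), ((-(T * u.re) / r : ℝ) : ℂ) * e1,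
      ((-(T * u.re) / r : ℝ) : ℂ) * e2, ((-(T * u.re) / r : ℝ) : ℂ) * e3] : E4) w).im := by
  set z : E4 := WithLp.toLp 2 ![u * (e1 * e2 * e3), e1 * (r : ℂ), e2 * (r : ℂ),
      e3 * (r : ℂ)] with hz
  have hz0 : z 0 = u * (e1 * e2 * e3) := rfl
  have hz1 : z 1 = e1 * (r : ℂ) := rfl
  have hz2 : z 2 = e2 * (r : ℂ) := rfl
  have hz3 : z 3 = e3 * (r : ℂ) := rfl
  obtain ⟨G1, hG1, hG1'⟩ := gf_hasFDerivAt h0 h1 hr hs hs' he1
  obtain ⟨G2, hG2, hG2'⟩ := gf_hasFDerivAt h0 h1 hr hs hs' he2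
  obtain ⟨G3, hG3, hG3'⟩ := gf_hasFDerivAt h0 h1 hr hs hs' he3
  have hp : ∀ i : Fin 4, HasFDerivAt (fun z : E4 => z i)
      (PiLp.proj (𝕜 := ℝ) 2 (fun _ : Fin 4 => ℂ) i) z := fun i =>
    (PiLp.proj (𝕜 := ℝ) 2 (fun _ : Fin 4 => ℂ) i).hasFDerivAt
  have k1 : HasFDerivAt (fun z : E4 => gf h0 h1 (z 1))
      (G1.comp (PiLp.proj (𝕜 := ℝ) 2 (fun _ : Fin 4 => ℂ) 1)) z := by
    have hG : HasFDerivAt (gf h0 h1) G1 (z 1) := hG1
    exact hG.comp z (hp 1)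
  have k2 : HasFDerivAt (fun z : E4 => gf h0 h1 (z 2))
      (G2.comp (PiLp.proj (𝕜 := ℝ) 2 (fun _ : Fin 4 => ℂ) 2)) z := by
    have hG : HasFDerivAt (gf h0 h1) G2 (z 2) := hG2
    exact hG.comp z (hp 2)
  have k3 : HasFDerivAt (fun z : E4 => gf h0 h1 (z 3))
      (G3.comp (PiLp.proj (𝕜 := ℝ) 2 (fun _ : Fin 4 => ℂ) 3)) z := by
    have hG : HasFDerivAt (gf h0 h1) G3 (z 3) := hG3
    exact hG.comp z (hp 3)
  have k4 := (hp 0).mul ((k1.mul k2).mul k3)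
  have k5 := (Complex.imCLM.hasFDerivAt.comp z k4).const_mul T
  have hev : HH h0 h1 T t =ᶠ[𝓝 z] fun z : E4 => T *
      (Complex.imCLM ∘ ((fun z : E4 => z 0) * ((fun z : E4 => gf h0 h1 (z 1)) *
        (fun z : E4 => gf h0 h1 (z 2)) * (fun z : E4 => gf h0 h1 (z 3))))) z := by
    have hcont : Continuous fun z : E4 => ‖z 0‖ ^ 2 := by fun_prop
    have hnb : {y : E4 | ‖y 0‖ ^ 2 < 2} ∈ 𝓝 z := by
      refine (isOpen_lt hcont continuous_const).mem_nhds ?_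
      change ‖u * (e1 * e2 * e3)‖ ^ 2 < 2
      rw [norm_mul, norm_mul, norm_mul, he1, he2, he3]
      simpa using hu
    filter_upwards [hnb] with y hy
    have b1 : bmp0 t = 1 := by
      refine bmp0.one_of_mem_closedBall ?_
      rw [mem_closedBall, Real.dist_eq, sub_zero]
      exact ht
    have b2 : bmp0 (‖y 0‖ ^ 2) = 1 := by
      refine bmp0.one_of_mem_closedBall ?_
      rw [mem_closedBall, Real.dist_eq, sub_zero, abs_of_nonneg (by positivity)]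
      exact le_of_lt hy
    unfold HH
    rw [b1, b2, mul_one, mul_one]
    rfl
  rw [(k5.congr_of_eventuallyEq hev).fderiv]
  have v1 : gf h0 h1 (z 1) = (starRingEnd ℂ) e1 := gf_val h0 h1 hr hs hs' he1
  have v2 : gf h0 h1 (z 2) = (starRingEnd ℂ) e2 := gf_val h0 h1 hr hs hs' he2
  have v3 : gf h0 h1 (z 3) = (starRingEnd ℂ) e3 := gf_val h0 h1 hr hs hs' he3
  set y1 : ℝ := ((starRingEnd ℂ) e1 * w 1).im / r with hy1
  set y2 : ℝ := ((starRingEnd ℂ) e2 * w 2).im / r with hy2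
  set y3 : ℝ := ((starRingEnd ℂ) e3 * w 3).im / r with hy3
  have hconj : ∀ e : ℂ, ‖e‖ = 1 → e * (starRingEnd ℂ) e = 1 := by
    intro e he
    rw [Complex.mul_conj, Complex.normSq_eq_norm_sq, he]
    simp
  have hee : (e1 * e2 * e3) *
      ((starRingEnd ℂ) e1 * (starRingEnd ℂ) e2 * (starRingEnd ℂ) e3) = 1 := by
    have q1 := hconj e1 he1
    have q2 := hconj e2 he2
    have q3 := hconj e3 he3
    calc _ = (e1 * (starRingEnd ℂ) e1) * (e2 * (starRingEnd ℂ) e2) * (e3 * (starRingEnd ℂ) e3) := by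
          ring
      _ = 1 := by rw [q1, q2, q3]; ring
  change T * (z 0 * ((gf h0 h1 (z 1) * gf h0 h1 (z 2)) * G3 (w 3) +
    gf h0 h1 (z 3) * (gf h0 h1 (z 1) * G2 (w 2) + gf h0 h1 (z 2) * G1 (w 1))) +
    (gf h0 h1 (z 1) * gf h0 h1 (z 2) * gf h0 h1 (z 3)) * w 0).im = _
  rw [v1, v2, v3, hG1', hG2', hG3', hz0]
  have key : u * (e1 * e2 * e3) * ((starRingEnd ℂ) e1 * (starRingEnd ℂ) e2 *
      (-Complex.I * (starRingEnd ℂ) e3 * (y3 : ℂ)) + (starRingEnd ℂ) e3 * ((starRingEnd ℂ) e1 *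
      (-Complex.I * (starRingEnd ℂ) e2 * (y2 : ℂ)) + (starRingEnd ℂ) e2 *
      (-Complex.I * (starRingEnd ℂ) e1 * (y1 : ℂ)))) +
      (starRingEnd ℂ) e1 * (starRingEnd ℂ) e2 * (starRingEnd ℂ) e3 * w 0 =
      -(u * Complex.I * ((y1 + y2 + y3 : ℝ) : ℂ)) +
      (starRingEnd ℂ) (e1 * e2 * e3) * w 0 := by
    rw [map_mul, map_mul]
    push_cast
    linear_combination (-(u * Complex.I * ((y1 : ℂ) + y2 + y3))) * hee
  rw [key, PiLp.inner_apply, Fin.sum_univ_four]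
  have w0 : ∀ c : ℂ, (inner ℂ c (w 0)) = (starRingEnd ℂ) c * w 0 := by
    intro c; rw [RCLike.inner_apply]; ring
  change T * _ = (inner ℂ ((T : ℂ) * (e1 * e2 * e3)) (w 0) +
    inner ℂ (((-(T * u.re) / r : ℝ) : ℂ) * e1) (w 1) +
    inner ℂ (((-(T * u.re) / r : ℝ) : ℂ) * e2) (w 2) +
    inner ℂ (((-(T * u.re) / r : ℝ) : ℂ) * e3) (w 3)).im
  have hin : ∀ (c : ℝ) (p q : ℂ), (inner ℂ ((c : ℂ) * p) q).im = c * ((starRingEnd ℂ) p * q).im := by
    intro c p q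
    rw [RCLike.inner_apply, map_mul, Complex.conj_ofReal]
    have : q * ((c : ℂ) * (starRingEnd ℂ) p) = (c : ℂ) * ((starRingEnd ℂ) p * q) := by ring
    rw [this, Complex.im_ofReal_mul]
  have hI : (-(u * Complex.I * ((y1 + y2 + y3 : ℝ) : ℂ))).im = -(u.re * (y1 + y2 + y3)) := by
    rw [Complex.neg_im, Complex.im_mul_ofReal, Complex.mul_I_im]
  simp only [Complex.add_im, hin]
  rw [hI, hy1, hy2, hy3]
  field_simp
  ring

end

end Pool.Agent.Helper10_Oh
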