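import Mathlib

set_option autoImplicit false

namespace Pool.Agent.Helper10_Oh

open Set Filter Topology Metric
open scoped NNReal

/-- global existence for a bounded, globally Lipschitz time-dependent vector field -/
lemma exists_global {E : Type*} [NormedAddCommGroup E] [NormedSpace ℝ E] [CompleteSpace E]
    (f : ℝ → E → E) (K L : ℝ≥0) (hK : ∀ t, LipschitzWith K (f t))
    (hc : ∀ x, Continuous fun t => f t x) (hL : ∀ t x, ‖f t x‖ ≤ L) (x : E) :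
    ∃ α : ℝ → E, α 0 = x ∧ ∀ t, HasDerivAt α (f t (α t)) t := by
  have h1 : ∀ n : ℕ, ∃ α : ℝ → E, α 0 = x ∧
      ∀ t ∈ Ioo (-((n : ℝ) + 1)) ((n : ℝ) + 1), HasDerivAt α (f t (α t)) t := by
    intro n
    have hn : (0 : ℝ) < (n : ℝ) + 1 := by positivity
    have hmem : (0 : ℝ) ∈ Icc (-((n : ℝ) + 1)) ((n : ℝ) + 1) := ⟨by linarith, by linarith⟩
    have hpl : IsPicardLindelof f (⟨0, hmem⟩ : Icc (-((n : ℝ) + 1)) ((n : ℝ) + 1)) x
        (L * ((n : ℝ≥0) + 1)) 0 L K := by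
      constructor
      · exact fun t _ => (hK t).lipschitzOnWith
      · exact fun y _ => (hc y).continuousOn
      · exact fun t _ y _ => hL t y
      · simp
    obtain ⟨α, hα0, hα⟩ := hpl.exists_eq_forall_mem_Icc_hasDerivWithinAt₀
    refine ⟨α, hα0, fun t ht => ?_⟩
    exact (hα t (Ioo_subset_Icc_self ht)).hasDerivAt (Icc_mem_nhds ht.1 ht.2)
  choose α hα0 hα using h1
  have h2 : ∀ n m : ℕ, n ≤ m → EqOn (α n) (α m) (Ioo (-((n : ℝ) + 1)) ((n : ℝ) + 1)) := by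
    intro n m hnm
    have hnm' : (n : ℝ) ≤ m := by exact_mod_cast hnm
    have hn : (0 : ℝ) < (n : ℝ) + 1 := by positivity
    refine ODE_solution_unique_of_mem_Ioo (v := f) (s := fun _ => univ) (K := K) (t₀ := 0)
      (fun t _ => (hK t).lipschitzOnWith) ⟨by linarith, by linarith⟩
      (fun t ht => ⟨hα n t ht, mem_univ _⟩)
      (fun t ht => ⟨hα m t ⟨by linarith [ht.1], by linarith [ht.2]⟩, mem_univ _⟩) ?_
    rw [hα0, hα0]
  refine ⟨fun t => α ⌊|t|⌋₊ t, by simp [hα0], fun t => ?_⟩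
  have hlt : ∀ s : ℝ, s ∈ Ioo (-((⌊|s|⌋₊ : ℝ) + 1)) ((⌊|s|⌋₊ : ℝ) + 1) := by
    intro s
    have := Nat.lt_floor_add_one |s|
    rw [abs_lt] at this
    exact this
  have heq : ∀ s : ℝ, |s| < |t| + 1 → α ⌊|s|⌋₊ s = α (⌊|t|⌋₊ + 1) s := by
    intro s hs
    refine h2 _ _ ?_ (hlt s)
    have h3 : ⌊|s|⌋₊ ≤ ⌊|t| + 1⌋₊ := Nat.floor_le_floor hs.le
    rwa [Nat.floor_add_one (abs_nonneg t)] at h3
  have hev : (fun s => α ⌊|s|⌋₊ s) =ᶠ[𝓝 t] α (⌊|t|⌋₊ + 1) := by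
    have : {s : ℝ | |s| < |t| + 1} ∈ 𝓝 t :=
      (isOpen_lt continuous_abs continuous_const).mem_nhds (by simp)
    exact Filter.mem_of_superset this heq
  have h4 := hα (⌊|t|⌋₊ + 1) t ?_
  · have h5 : (fun s => α ⌊|s|⌋₊ s) t = α (⌊|t|⌋₊ + 1) t := hev.self_of_nhds
    change HasDerivAt (fun s => α ⌊|s|⌋₊ s) (f t ((fun s => α ⌊|s|⌋₊ s) t)) t
    rw [h5]
    exact h4.congr_of_eventuallyEq hev
  · have := hlt t
    push_cast
    exact ⟨by linarith [this.1], by linarith [this.2]⟩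

end Pool.Agent.Helper10_Oh
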